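import Pool.Agent.H95.ShoeD

set_option autoImplicit false

open Filter Topology

theorem Pool.Agent.Results.MP_f96ee4_an.Chaotic.result :
    ∃ α δ C : ℝ, 0 < α ∧ 0 < δ ∧ 0 < C ∧ ∃ x : ℕ → ℝ, (∀ n, 0 < x n) ∧
      (∀ n, x (n + 3) = (α + x (n + 2) + δ * x n) / (x (n + 2) + C * x (n + 1))) ∧
      BddAbove (Set.range x) ∧
      (∀ c : ℝ, ¬ Tendsto x atTop (𝓝 c)) ∧
      ∀ p : ℕ → ℝ, (∃ k, 0 < k ∧ ∀ n, p (n + k) = p n) →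
        ¬ Tendsto (fun n => x n - p n) atTop (𝓝 0) := by
  obtain ⟨x, h1, h2, h3⟩ := Pool.Agent.H95.ShoeD.ex
  refine ⟨1, 30, 30, by norm_num, by norm_num, by norm_num, x, h1, fun n => ?_, h3⟩
  rw [h2 n]
  simp [Pool.Agent.H95.ShoeD.P]
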